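import Mathlib
import Pool.Agent.Run7.h731.HK.Norm2

/-!
# The norms of the eigenvalues of a weight-2 Hecke character satisfy the Ramanujan bound almost everywhere, up to a
# density at most `1 / (34 m + 1)`

Let `θ` be a nontrivial character of the Hecke algebra `𝕋₁(𝔫)` of `GL_2` over ANY number field `K` (also of mixed
signature, where the bound of the problem is not known for any large class of characters), let `E` be the number field
generated by its values, and `F ⊆ E` the subfield generated by the numbers `u_v = θ(T_v)² / θ(S_v)`. It belongs to a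
cuspidal automorphic representation `π` with the Satake parameters `α_v`, `β_v`, where
`θ(T_v) = √(N v) (α_v + β_v)`, `θ(S_v) = α_v β_v`, and `u_v = |θ(T_v)|²` for all conjugates. The bound of the problem for `θ`
and its conjugates at `v` says that all conjugates of `u_v` are at most `4 N v`. The conjugates `τ θ`, `τ` an
embedding of `E`, are characters of `𝕋₁(𝔫)`, and they belong to representations which are twists of each other if
and only if the `τ` agree on `F` (by strong multiplicity one for the lifts `Ad π` to `GL_3`). So `θ` has exactly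
`m = [F : ℚ]` conjugates up to twists.

We show, for the places of any class `U` of positive measure given by Hecke characters (for instance `v` in a class of a ray
class group, or, for infinitely many Hecke characters, in a sector), that with the exception of sets of places of
the following relative upper density

* `1 / (34 m + 1)`: **the norm of `θ(T_v)` satisfies the Ramanujan bound** `|N_{E/ℚ} θ(T_v)| ≤ (2 √(N v))^[E : ℚ]`;
* `1 / (1 + m ((y - 1)² + (y² - 3 y + 1)²))`: `|N_{E/ℚ} θ(T_v)| < √(y N v)^[E : ℚ]`, and moreover the rational integer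
  `Tr_{F/ℚ} u_v` is less than `m y N v` (`y ≥ 3` arbitrary; the bound of the problem would give `m 4 N v`);
* `1 / (1 + m δ²)`: `Tr_{F/ℚ} u_v < (1 + δ) m N v`; the same for `Tr_{F/ℚ} u_v > (1 - δ) m N v`.

So if the field `F` has a large degree, then for almost all places the quadratic mean of the conjugates of `θ(T_v)` is
close to `√(N v)`, and their geometric mean satisfies the bound of the problem.

Used are the properties of the structure `HeckeFamily` (`Pool/Agent/Run7/h731/HK/Fam.lean`): unitarity, and the known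
analytic properties of the partial `L`-functions `L(s, (Π ⊗ χ) × Π'~)` for `χ` in the given group `X` of Hecke characters and
`Π, Π'` among the lifts `Ad π_i` (to `GL_3`), `A⁴ π_i` (to `GL_5`) of the `m` conjugates `π_i`, supposed cuspidal and
inequivalent up to twists by `X`, and the trivial representation. (If such a lift is not cuspidal, then `π` is dihedral, tetrahedral
or octahedral and tempered.)

Method: see `Pool/Agent/Results/MP_8410ab_nt/HeckeClasses.lean`. New is the passage to the norms and the traces: if the mean of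
the `m` numbers `|α_i + β_i|² = 1 + A_i` is at least `y`, then `∑ A_i ≥ m (y - 1)`, and by Cauchy's inequality
`∑ B_i = ∑ (A_i² - A_i - 1) ≥ m (y² - 3 y + 1)`, `A_i` and `B_i` the traces for `Ad π_i` and `A⁴ π_i`, so that the square of
`1 + ∑ ((y - 1) A_i + (y² - 3 y + 1) B_i)` is large; this is a test function which is nonnegative at all prime powers.
The norm is compared with the trace by the inequality between the geometric and the arithmetic mean.
-/

set_option autoImplicit false

namespace Pool.Agent.Results.MP_4819b8_nt.NormsAndTraces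

open NumberField IsDedekindDomain
open Pool.Agent.TH861.GL3 (PL qq)
open Pool.Agent.Run7.h731.HK (HeckeFamily RelLe)

/-- `t v = θ(T_v)` and `s v = θ(S_v)` are the values, in the number field `E`, of a character `θ` of the Hecke algebra
at the places `v` outside `S`; `u v = θ(T_v)² / θ(S_v)` in the subfield `F`, with the embeddings `e i`; `α i v` are
the Satake parameters at `v` of a representation that belongs to a conjugate `τ θ` of `θ`, where `τ` extends `e i`. -/
structure Eigenvalues {K : Type*} [Field K] [NumberField K] {S : Finset (HeightOneSpectrum (𝓞 K))}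
    {F E : Type*} [Field F] [NumberField F] [Field E] [NumberField E] [Algebra F E] {m : ℕ}
    (t s : PL S → E) (u : PL S → F) (e : Fin m ≃ (F →ₐ[ℚ] ℂ)) (α : Fin m → PL S → Fin 2 → ℂ) : Prop where
  /-- `θ(S_v)` is a root of unity -/
  root : ∀ v, ∃ n : ℕ, 0 < n ∧ s v ^ n = 1
  /-- `u v = θ(T_v)² / θ(S_v)` -/
  square : ∀ v, algebraMap F E (u v) * s v = t v ^ 2
  /-- the Satake parameters: `θ(T_v) = √(N v) (α + β)`, `θ(S_v) = α β` for the conjugates -/
  satake : ∀ i v, e i (u v) = (qq v.1 : ℂ) * ((α i v 0 + α i v 1) ^ 2 / (α i v 0 * α i v 1))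

/-- **Norms and traces of the Hecke eigenvalues.** `PL S` is the set of the finite places of `K` outside `S`, `qq v` the
norm of `v`; `RelLe g U P c`: the relative upper Dirichlet density of the places with `P`, among the places `v`
with `g v ∈ U`, is at most `c`; `m = [F : ℚ]`. -/
theorem result {K : Type*} [Field K] [NumberField K] {S : Finset (HeightOneSpectrum (𝓞 K))}
    {F E : Type*} [Field F] [NumberField F] [Field E] [NumberField E] [Algebra F E] {m : ℕ}
    {t s : PL S → E} {u : PL S → F} {e : Fin m ≃ (F →ₐ[ℚ] ℂ)} {α : Fin m → PL S → Fin 2 → ℂ}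
    (hθ : Eigenvalues t s u e α)
    {G : Type*} [CommGroup G] [TopologicalSpace G] [IsTopologicalGroup G] [CompactSpace G] [T2Space G]
    [MeasurableSpace G] [BorelSpace G] {X : Subgroup (G →ₜ* Circle)} {g : PL S → G} (h : HeckeFamily X g α)
    (μ : MeasureTheory.Measure G) [μ.IsMulLeftInvariant] [MeasureTheory.IsProbabilityMeasure μ] [μ.OuterRegular]
    {U : Set G} (hU : MeasurableSet U) (hf : μ (frontier U) = 0) (h0 : 0 < μ U) :
    RelLe g U (fun v => (2 * Real.sqrt (qq v.1)) ^ Module.finrank ℚ E < |((Algebra.norm ℚ (t v) : ℚ) : ℝ)|)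
      (1 / (34 * (m : ℝ) + 1)) ∧
    (∀ y : ℝ, 3 ≤ y →
      RelLe g U (fun v => Real.sqrt (y * qq v.1) ^ Module.finrank ℚ E ≤ |((Algebra.norm ℚ (t v) : ℚ) : ℝ)|)
        (1 / (1 + (m : ℝ) * ((y - 1) ^ 2 + (y ^ 2 - 3 * y + 1) ^ 2))) ∧
      RelLe g U (fun v => (m : ℝ) * y * (qq v.1 : ℝ) ≤ ((Algebra.trace ℚ F (u v) : ℚ) : ℝ))
        (1 / (1 + (m : ℝ) * ((y - 1) ^ 2 + (y ^ 2 - 3 * y + 1) ^ 2)))) ∧
    ∀ δ : ℝ, 0 < δ →
      RelLe g U (fun v => (1 + δ) * ((m : ℝ) * (qq v.1 : ℝ)) ≤ ((Algebra.trace ℚ F (u v) : ℚ) : ℝ))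
        (1 / (1 + (m : ℝ) * δ ^ 2)) ∧
      RelLe g U (fun v => ((Algebra.trace ℚ F (u v) : ℚ) : ℝ) ≤ (1 - δ) * ((m : ℝ) * (qq v.1 : ℝ)))
        (1 / (1 + (m : ℝ) * δ ^ 2)) := by
  have h1 : 0 < μ.real U := ENNReal.toReal_pos h0.ne' (MeasureTheory.measure_ne_top μ U)
  have hm := Pool.Agent.Run7.h731.HK.pos_of_equiv e
  have hN : ∀ v, 0 ≤ ((Algebra.norm ℚ (u v) : ℚ) : ℝ) := fun v => by
    rw [Pool.Agent.Run7.h731.HK.norm_eq e h hθ.satake]
    exact Finset.prod_nonneg fun i _ => by positivity
  have hy : ∀ y : ℝ, 3 ≤ y →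
      RelLe g U (fun v => Real.sqrt (y * qq v.1) ^ Module.finrank ℚ E ≤ |((Algebra.norm ℚ (t v) : ℚ) : ℝ)|)
        (1 / (1 + (m : ℝ) * ((y - 1) ^ 2 + (y ^ 2 - 3 * y + 1) ^ 2))) := fun y hy =>
    (Pool.Agent.Run7.h731.HK.norm_bound e μ h hU hf h1 hm hθ.satake hy).mono fun v hv =>
      Pool.Agent.Run7.h731.HK.norm_transfer e (hθ.root v) (hθ.square v) (hN v) (by positivity) hv
  refine ⟨?_, fun y h3 => ⟨hy y h3, Pool.Agent.Run7.h731.HK.trace_bound e μ h hU hf h1 hm hθ.satake h3⟩,
    fun δ hδ => Pool.Agent.Run7.h731.HK.trace_dev e μ h hU hf h1 hm hθ.satake hδ⟩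
  have h4 := hy 4 (by norm_num)
  have e4 : (1 : ℝ) + (m : ℝ) * ((4 - 1) ^ 2 + (4 ^ 2 - 3 * 4 + 1) ^ 2) = 34 * (m : ℝ) + 1 := by ring
  rw [e4] at h4
  refine h4.mono fun v hv => ?_
  have e5 : Real.sqrt (4 * (qq v.1 : ℝ)) = 2 * Real.sqrt (qq v.1 : ℝ) := by
    rw [Real.sqrt_mul (by norm_num : (0 : ℝ) ≤ 4)]
    congr 1
    rw [show (4 : ℝ) = 2 ^ 2 by norm_num]
    exact Real.sqrt_sq (by norm_num)
  rw [e5]
  exact hv.le

end Pool.Agent.Results.MP_4819b8_nt.NormsAndTraces
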