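import Pool.Agent.Run7.h546.SC.Fin

/-!
# How many conjugates of the eigenvalue of a weight-2 Hecke character violate the Ramanujan bound at a place?

Let `θ` be a nontrivial character of the Hecke algebra `𝕋₁(𝔫)` of `GL_2` over ANY number field `K`, let `E` be the number field
generated by its values, `F ⊆ E` the subfield generated by the numbers `u_v = θ(T_v)² / θ(S_v)`, and `m = [F : ℚ]`. The
conjugates `τ θ`, `τ` an embedding of `E`, are nontrivial characters of `𝕋₁(𝔫)`, and the bound of the problem for all of them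
at the place `v` says that `|τ θ(T_v)| ≤ 2 √(N v)` for all `τ`. We show that, with the exception of a set of places of relative
upper density `O(1/m)`, in every class of places of positive measure given by Hecke characters, **at least the share `1 - κ` of
the `[E : ℚ]` conjugates satisfies the bound**, for every `κ > 1/10`. More precisely:

(1) the places at which at least the share `κ` of the conjugates has `|τ θ(T_v)|² ≥ y N v` have relative upper density at
most `1 / (1 + m (κ (y - 1 + c)² - (1 + c²))² / ((1 + 2 c)² + 1))`, for all real `c ≥ 1 - y` with `κ (y - 1 + c)² ≥ 1 + c²`;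
with `c = 1 / (y - 1)` this is `O(1/m)` for all `κ > 1 / (1 + (y - 1)²)`;
(2) the same for small eigenvalues, `|τ θ(T_v)|² ≤ y N v`;
(3) for `y = 4`, `c = 1/3`: at least the share `κ ≥ 1/10` of the conjugates violates the bound of the problem for a relative
upper density of at most `1 / (1 + (50/153) (10 κ - 1)² m)` of the places;
(4) `θ(T_v) = 0` for a relative upper density of at most `1 / (1 + 2 m)`;
(5) the fourth moment `∑_τ |τ θ(T_v)|⁴` is close to its mean value: `Tr_{F/ℚ} u_v² ≥ (2 + δ) m (N v)²`, respectively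
`≤ (2 - δ) m (N v)²`, for a relative upper density of at most `1 / (1 + m δ² / 10)`.

Used is the structure `HeckeFamily` of `Pool/Agent/Run7/h731/HK/Fam.lean` (by helper731 and helper911): unitarity, and the
known analytic properties of the partial `L`-functions `L(s, (Π ⊗ χ) × Π'~)` for `χ` in the given group `X` of Hecke characters
and `Π, Π'` among the lifts `Ad π_i` (to `GL_3`), `A⁴ π_i` (to `GL_5`) of the `m` conjugates `π_i` up to twists, supposed cuspidal
and inequivalent up to twists by `X`, and the trivial representation.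

Method: with the traces `A_i`, `B_i` of `Ad π_i` and `A⁴ π_i` one has `|α_i + β_i|² = 1 + A_i`, `A_i² = 1 + A_i + B_i`, so
`∑ (± A_i + c)² = m (1 + c²) + ∑ ((1 ± 2 c) A_i + B_i)`, and the mean value of the square of the last sum is
`m ((1 ± 2 c)² + 1)`; the left side is at least `κ m (y - 1 + c)²` at the places of (1). The test function
`(1 + λ ∑ ((1 ± 2 c) A_i + B_i))²` is nonnegative at all prime powers.
-/

set_option autoImplicit false

namespace Pool.Agent.Results.MP_4819b8_nt.ShareOfConjugates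

open NumberField IsDedekindDomain
open Pool.Agent.TH861.GL3 (PL qq)
open Pool.Agent.Run7.h731.HK (HeckeFamily RelLe)
open Pool.Agent.Run7.h546.SC

/-- `t v = θ(T_v)` and `s v = θ(S_v)` are the values, in the number field `E`, of a character `θ` of the Hecke algebra
at the places `v` outside `S`; `u v = θ(T_v)² / θ(S_v)` in the subfield `F`, with the embeddings `e i`; `α i v` are
the Satake parameters at `v` of a representation that belongs to a conjugate `τ θ` of `θ`, where `τ` extends `e i`. -/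
structure Eigenvalues {K : Type*} [Field K] [NumberField K] {S : Finset (HeightOneSpectrum (𝓞 K))}
    {F E : Type*} [Field F] [NumberField F] [Field E] [NumberField E] [Algebra F E] {m : ℕ}
    (t s : PL S → E) (u : PL S → F) (e : Fin m ≃ (F →ₐ[ℚ] ℂ)) (α : Fin m → PL S → Fin 2 → ℂ) : Prop where
  /-- `θ(S_v)` is a root of unity -/
  root : ∀ v, ∃ n : ℕ, 0 < n ∧ s v ^ n = 1
  /-- `u v = θ(T_v)² / θ(S_v)` -/
  square : ∀ v, algebraMap F E (u v) * s v = t v ^ 2
  /-- the Satake parameters: `θ(T_v) = √(N v) (α + β)`, `θ(S_v) = α β` for the conjugates -/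
  satake : ∀ i v, e i (u v) = (qq v.1 : ℂ) * ((α i v 0 + α i v 1) ^ 2 / (α i v 0 * α i v 1))

/-- **Most conjugates satisfy the bound.** `PL S` is the set of the finite places of `K` outside `S`, `qq v` the
norm of `v`; `RelLe g U P c`: the relative upper Dirichlet density of the places with `P`, among the places `v`
with `g v ∈ U`, is at most `c`; `m = [F : ℚ]`. -/
theorem result {K : Type*} [Field K] [NumberField K] {S : Finset (HeightOneSpectrum (𝓞 K))}
    {F E : Type*} [Field F] [NumberField F] [Field E] [NumberField E] [Algebra F E] {m : ℕ}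
    {t s : PL S → E} {u : PL S → F} {e : Fin m ≃ (F →ₐ[ℚ] ℂ)} {α : Fin m → PL S → Fin 2 → ℂ}
    (hθ : Eigenvalues t s u e α)
    {G : Type*} [CommGroup G] [TopologicalSpace G] [IsTopologicalGroup G] [CompactSpace G] [T2Space G]
    [MeasurableSpace G] [BorelSpace G] {X : Subgroup (G →ₜ* Circle)} {g : PL S → G} (h : HeckeFamily X g α)
    (μ : MeasureTheory.Measure G) [μ.IsMulLeftInvariant] [MeasureTheory.IsProbabilityMeasure μ] [μ.OuterRegular]
    {U : Set G} (hU : MeasurableSet U) (hf : μ (frontier U) = 0) (h0 : 0 < μ U) :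
    (∀ y c κ : ℝ, 0 ≤ y - 1 + c → 1 + c ^ 2 ≤ κ * (y - 1 + c) ^ 2 →
      RelLe g U (fun v => κ * (Module.finrank ℚ E : ℝ) ≤
          (Nat.card {τ : E →ₐ[ℚ] ℂ // y * (qq v.1 : ℝ) ≤ ‖τ (t v)‖ ^ 2} : ℝ))
        (1 / (1 + (m : ℝ) * ((κ * (y - 1 + c) ^ 2 - (1 + c ^ 2)) ^ 2 / ((1 + 2 * c) ^ 2 + 1))))) ∧
    (∀ y c κ : ℝ, 0 ≤ 1 - y + c → 1 + c ^ 2 ≤ κ * (1 - y + c) ^ 2 →
      RelLe g U (fun v => κ * (Module.finrank ℚ E : ℝ) ≤
          (Nat.card {τ : E →ₐ[ℚ] ℂ // ‖τ (t v)‖ ^ 2 ≤ y * (qq v.1 : ℝ)} : ℝ))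
        (1 / (1 + (m : ℝ) * ((κ * (1 - y + c) ^ 2 - (1 + c ^ 2)) ^ 2 / ((1 - 2 * c) ^ 2 + 1))))) ∧
    (∀ κ : ℝ, 1 / 10 ≤ κ →
      RelLe g U (fun v => κ * (Module.finrank ℚ E : ℝ) ≤
          (Nat.card {τ : E →ₐ[ℚ] ℂ // 2 * Real.sqrt (qq v.1 : ℝ) < ‖τ (t v)‖} : ℝ))
        (1 / (1 + 50 / 153 * (10 * κ - 1) ^ 2 * (m : ℝ)))) ∧
    RelLe g U (fun v => t v = 0) (1 / (1 + 2 * (m : ℝ))) ∧
    ∀ δ : ℝ, 0 ≤ δ →
      RelLe g U (fun v => (2 + δ) * ((m : ℝ) * (qq v.1 : ℝ) ^ 2) ≤ ((Algebra.trace ℚ F (u v ^ 2) : ℚ) : ℝ))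
        (1 / (1 + (m : ℝ) * (δ ^ 2 / 10))) ∧
      RelLe g U (fun v => ((Algebra.trace ℚ F (u v ^ 2) : ℚ) : ℝ) ≤ (2 - δ) * ((m : ℝ) * (qq v.1 : ℝ) ^ 2))
        (1 / (1 + (m : ℝ) * (δ ^ 2 / 10))) := by
  have h1 : 0 < μ.real U := ENNReal.toReal_pos h0.ne' (MeasureTheory.measure_ne_top μ U)
  refine ⟨fun y c κ hz hκ => large_share e μ h hU hf h1 hθ.root hθ.square hθ.satake hz hκ,
    fun y c κ hz hκ => small_share e μ h hU hf h1 hθ.root hθ.square hθ.satake hz hκ,
    fun κ hκ => violate e μ h hU hf h1 hθ.root hθ.square hθ.satake hκ,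
    zero e μ h hU hf h1 hθ.root hθ.square hθ.satake, fun δ hδ =>
    ⟨(fourth μ h hU hf h1 (Or.inl rfl) hδ).mono fun v hv => ?_,
      (fourth μ h hU hf h1 (Or.inr rfl) hδ).mono fun v hv => ?_⟩⟩
  · have hq : (0 : ℝ) < (qq v.1 : ℝ) ^ 2 := pow_pos (Pool.Agent.TH861.GL3.qq_pos v.1) 2
    rw [trace_sq e h hθ.satake] at hv
    have h2 : (qq v.1 : ℝ) ^ 2 * ((2 + δ) * m) ≤ (qq v.1 : ℝ) ^ 2 * ∑ i, (‖α i v 0 + α i v 1‖ ^ 2) ^ 2 := by
      calc (qq v.1 : ℝ) ^ 2 * ((2 + δ) * m) = (2 + δ) * ((m : ℝ) * (qq v.1 : ℝ) ^ 2) := by ring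
        _ ≤ _ := hv
    have h3 := le_of_mul_le_mul_left h2 hq
    linarith
  · have hq : (0 : ℝ) < (qq v.1 : ℝ) ^ 2 := pow_pos (Pool.Agent.TH861.GL3.qq_pos v.1) 2
    rw [trace_sq e h hθ.satake] at hv
    have h2 : (qq v.1 : ℝ) ^ 2 * ∑ i, (‖α i v 0 + α i v 1‖ ^ 2) ^ 2 ≤ (qq v.1 : ℝ) ^ 2 * ((2 - δ) * m) := by
      calc (qq v.1 : ℝ) ^ 2 * ∑ i, (‖α i v 0 + α i v 1‖ ^ 2) ^ 2 ≤ (2 - δ) * ((m : ℝ) * (qq v.1 : ℝ) ^ 2) := hv
        _ = _ := by ring
    have h3 := le_of_mul_le_mul_left h2 hq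
    linarith

end Pool.Agent.Results.MP_4819b8_nt.ShareOfConjugates
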